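import Mathlib

namespace Pool.Agent.H.MP_b29aa3_nt

open Finset PowerSeries

def sm (g : ℕ → ℤ) : ℕ → ℤ
  | 0 => 0
  | n + 1 => sm g n + g n

lemma sm_eq (g : ℕ → ℤ) (n : ℕ) : sm g n = ∑ i ∈ range n, g i := by
  induction n with
  | zero => rfl
  | succ n ih => rw [sm, ih, sum_range_succ]

def cv (s : ℕ) (A B : ℕ → ℤ) (k : ℕ) : ℤ := sm (fun j => A j * B (k - s * j)) (k / s + 1)

noncomputable def Ph (n : ℕ) : ℤ⟦X⟧ := (Polynomial.cyclotomic n ℤ : ℤ⟦X⟧)

lemma conv {s : ℕ} (hs : s ≠ 0) (A B : ℕ → ℤ) :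
    expand s hs (mk A) * mk B = mk (cv s A B) := by
  ext k
  rw [coeff_mul, coeff_mk, cv, sm_eq, Nat.sum_antidiagonal_eq_sum_range_succ
    (fun i j => coeff i (expand s hs (mk A)) * coeff j (mk B))]
  simp only [coeff_expand, coeff_mk, ite_mul, zero_mul]
  rw [← sum_filter]
  symm
  have hs' : 0 < s := Nat.pos_of_ne_zero hs
  refine sum_nbij' (fun j => s * j) (fun i => i / s) ?_ ?_ ?_ ?_ ?_
  · intro j hj
    have := mem_range.1 hj
    refine mem_filter.2 ⟨mem_range.2 ?_, dvd_mul_right _ _⟩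
    have h1 : s * j ≤ s * (k / s) := Nat.mul_le_mul_left _ (by omega)
    have := Nat.mul_div_le k s
    omega
  · intro i hi
    have := mem_range.1 (mem_filter.1 hi).1
    exact mem_range.2 (Nat.lt_succ_of_le (Nat.div_le_div_right (by omega)))
  · intro j _; exact Nat.mul_div_cancel_left _ hs'
  · intro i hi; exact Nat.mul_div_cancel' (mem_filter.1 hi).2
  · intro j _; rw [Nat.mul_div_cancel_left _ hs']

def Good (n : ℕ) (f u : ℕ → ℤ) : Prop := Ph n = mk f ∧ mk u * Ph n = 1

lemma Ph_step {n s : ℕ} (hs : s.Prime) (hd : ¬ s ∣ n) :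
    Ph (n * s) * Ph n = expand s hs.ne_zero (Ph n) := by
  unfold Ph
  rw [← Polynomial.coe_mul, ← Polynomial.cyclotomic_expand_eq_cyclotomic_mul hs hd]
  ext k
  simp only [coeff_expand, Polynomial.coeff_coe, Polynomial.coeff_expand hs.pos]

lemma step {n s : ℕ} {f u : ℕ → ℤ} (h : Good n f u) (hs : s.Prime) (hd : ¬ s ∣ n) :
    Good (n * s) (cv s f u) (cv s u f) := by
  obtain ⟨h1, h2⟩ := h
  have h3 := Ph_step hs hd
  constructor
  · rw [← conv hs.ne_zero, ← h1, ← h3, mul_assoc, mul_comm (Ph n), h2, mul_one]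
  · rw [← conv hs.ne_zero, ← h1, mul_assoc, mul_comm (Ph n), h3, ← map_mul, h2, map_one]

lemma per {n : ℕ} {f u : ℕ → ℤ} (h : Good n f u) (hn : 0 < n) (t : ℕ) : u (t + n) = u t := by
  obtain ⟨Q, hQ⟩ := Polynomial.cyclotomic.dvd_X_pow_sub_one n ℤ
  have hX : (Polynomial.X ^ n - 1 : Polynomial ℤ).natDegree = n := by
    simpa using Polynomial.natDegree_X_pow_sub_C (n := n) (r := (1 : ℤ))
  have hQ0 : Q ≠ 0 := by
    rintro rfl
    rw [hQ] at hX; simp at hX; omega
  have hd : Q.natDegree < n := by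
    rw [hQ, Polynomial.natDegree_mul (Polynomial.cyclotomic_ne_zero n ℤ) hQ0,
      Polynomial.natDegree_cyclotomic] at hX
    have := Nat.totient_pos.2 hn
    omega
  have e : mk u * (X ^ n - 1) = (Q : ℤ⟦X⟧) := by
    have : (X ^ n - 1 : ℤ⟦X⟧) = Ph n * Q := by
      unfold Ph; rw [← Polynomial.coe_mul, ← hQ]; simp
    rw [this, ← mul_assoc, h.2, one_mul]
  have c := congrArg (coeff (t + n)) e
  rw [mul_sub, mul_one, map_sub, coeff_mul_X_pow, coeff_mk, coeff_mk, Polynomial.coeff_coe,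
    Polynomial.coeff_eq_zero_of_natDegree_lt (by omega)] at c
  linarith

lemma per' {n : ℕ} {f u : ℕ → ℤ} (h : Good n f u) (hn : 0 < n) (t a : ℕ) : u (t + n * a) = u t := by
  induction a with
  | zero => simp
  | succ a ih => rw [mul_add, mul_one, ← add_assoc, per h hn, ih]

lemma redu {n : ℕ} {f u : ℕ → ℤ} (h : Good n f u) (hn : 0 < n) :
    Good n f (fun t => u (t % n)) := by
  have : (fun t => u (t % n)) = u := by
    funext t; rw [← per' h hn (t % n) (t / n), Nat.mod_add_div]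
  rw [this]; exact h

lemma top {n a : ℕ} {f u : ℕ → ℤ} (h : Good n f u) (hn : 0 < n) (J e : ℕ) (he : e < n * a + 1)
    (hJ : 0 < J) : cv (n * a + 1) f u ((n * a + 1) * J + e) =
      -sm (fun i => f (J + 1 + i) * u (e - 1 - i)) e := by
  have h0 : ∑ j ∈ range (J + 1 + e), f j * u (J + e - j) = 0 := by
    have c := congrArg (coeff (J + e)) h.2
    rw [mul_comm, h.1, coeff_mul, Nat.sum_antidiagonal_eq_sum_range_succ
      (fun i j => coeff i (mk f) * coeff j (mk u)), coeff_one, if_neg (by omega)] at c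
    simp only [coeff_mk] at c
    rw [show J + 1 + e = (J + e).succ by omega]; exact c
  rw [sum_range_add] at h0
  have hd : ((n * a + 1) * J + e) / (n * a + 1) = J := by
    rw [Nat.mul_add_div (by omega), Nat.div_eq_of_lt he]; rfl
  rw [cv, sm_eq, sm_eq, hd]
  have h1 : ∑ j ∈ range (J + 1), f j * u ((n * a + 1) * J + e - (n * a + 1) * j)
      = ∑ j ∈ range (J + 1), f j * u (J + e - j) := by
    refine sum_congr rfl fun j hj => ?_
    obtain ⟨d, rfl⟩ : ∃ d, J = j + d := ⟨J - j, by have := mem_range.1 hj; omega⟩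
    rw [show (n * a + 1) * (j + d) + e - (n * a + 1) * j = (d + e) + n * (a * d) by
      rw [mul_add, add_assoc, Nat.add_sub_cancel_left]; ring, per' h hn]
    congr 2; omega
  have h2 : ∑ i ∈ range e, f (J + 1 + i) * u (e - 1 - i)
      = ∑ i ∈ range e, f (J + 1 + i) * u (J + e - (J + 1 + i)) := by
    refine sum_congr rfl fun i _ => ?_
    congr 2; omega
  rw [h1, h2]; linarith

def f0 (k : ℕ) : ℤ := if k = 0 then -1 else if k = 1 then 1 else 0
def u0 (_ : ℕ) : ℤ := -1

lemma base : Good 1 f0 u0 := by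
  have e : Ph 1 = X - 1 := by simp [Ph]
  constructor
  · ext k
    rw [e, coeff_mk, map_sub, coeff_X, coeff_one, f0]
    split_ifs <;> simp_all
  · have := mk_one_mul_one_sub_eq_one ℤ
    have h : (mk u0 : ℤ⟦X⟧) = -PowerSeries.mk 1 := by ext k; simp [u0]
    rw [e, h]; linear_combination this

def f1 := cv 11 f0 u0
def u1 := cv 11 u0 f0
def f2 := cv 13 f1 u1
def u2 := fun t => cv 13 u1 f1 (t % 143)
def f3 := cv 571 f2 u2
def u3 := cv 571 u2 f2

lemma g3 : Good 81653 f3 u3 := by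
  have g1 : Good (1 * 11) f1 u1 := step base (by norm_num) (by norm_num)
  have g2 : Good (1 * 11 * 13) f2 u2 := redu (step g1 (by norm_num) (by norm_num)) (by norm_num)
  exact step g2 (s := 571) (by norm_num) (by norm_num)

lemma val : sm (fun i => f3 (12579 + 1 + i) * u3 (27 - 1 - i)) 27 = -3 := by decide +kernel

lemma coef : (Polynomial.cyclotomic (11 * 13 * 571 * 163307) ℤ).coeff (163307 * 12579 + 27) = 3 := by
  have g := step g3 (s := 81653 * 2 + 1) (by norm_num) (by norm_num)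
  have t := top (a := 2) g3 (by norm_num) 12579 27 (by norm_num) (by norm_num)
  rw [val] at t
  have c := congrArg (coeff ((81653 * 2 + 1) * 12579 + 27)) g.1
  rw [coeff_mk, t, Ph, Polynomial.coeff_coe] at c
  exact c

end Pool.Agent.H.MP_b29aa3_nt
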